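import Pool.Agent.Lib.MP_acafa7_al.F.IfaceG
import Pool.Agent.Lib.MP_acafa7_al.MS.Full1

/-! PRED: removal of positive curvature from a labelled map. -/

namespace MSG.F55

open Classical

theorem toL_t {V D : Type} (M : PMap V D) (d : D) : M.toL.t d = (M.f (M.ι d), 0) := by
  show ((shft V) ^ (0 : ℤ)) (M.f (M.ι d), 0) = _
  simp

theorem toL_len {V D : Type} (M : PMap V D) (X : Cx V) : M.toL.lenM X.times = M.ln X := by
  funext d
  show X.len (M.f d) (M.toL.t d).1 = _
  rw [toL_t]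
  rfl

theorem f_sameV {V D : Type} (M : PMap V D) {x y : D} (h : M.SameV x y) : M.f x = M.f y :=
  ((h (fun d => M.f x = M.f d) fun d => by rw [M.tgt d]).1 rfl)

theorem pred_st (hb : BrgStatement) : PRedStatement := by
  intro V D _ X hX1 hX2 M R w d₀ hP hd₀ hcurv
  obtain ⟨hpl, hadj, hF, hoff, hwk⟩ := hP
  obtain ⟨hb1, hb2, hfree⟩ := hb V X
  have hco : Cocyc X.times.G Set.univ (fun _ _ _ => (0 : ZMod 2)) :=
    ⟨fun _ _ _ => rfl, fun _ _ _ => rfl, fun _ _ _ _ _ _ _ _ _ _ _ _ _ _ => by simp⟩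
  have hz : M.toL.Zero := fun _ => ⟨rfl, rfl⟩
  have hadjL : M.toL.AdjM X.times.G := by
    intro d
    rw [toL_t]
    exact ⟨hadj d, rfl⟩
  have hoffL : M.toL.Off {d | d ∈ R} := ⟨hoff.1, fun d hd => ⟨hoff.2 d hd, by
    show (0 : ℤ) + 0 + 0 = 0
    simp⟩⟩
  have h1 : ∀ d, M.toL.SameV d₀ d → d ∉ {d | d ∈ R} := fun d hd hR => hd₀ d hR hd
  have h2 : ∀ d, M.toL.SameV d₀ d → ¬ M.toL.SameV d (M.toL.ι d) := by
    intro d _ hl
    have h3 : M.f d = M.f (M.ι d) := f_sameV M hl
    have h4 := hadj d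
    rw [h3] at h4
    exact X.G.loopless.irrefl _ h4
  obtain ⟨D', fD', M', j, j1, j2, j3, j4, j5, j6, j7, j8⟩ :=
    a_red (V × ℤ) D X.times (shft V) (hb1 hX1) (hb2 hX2) hfree M.toL {d | d ∈ R} Set.univ
      (fun _ _ _ => 0) d₀ hco (Or.inl fun _ => trivial) hpl hadjL hoffL h1 h2
      (by rw [toL_len]; exact hcurv)
  obtain ⟨hz', -⟩ := j8 hz
  have ht' : ∀ d, M'.t d = M'.f (M'.ι d) := fun d => by
    show ((shft V) ^ (M'.γ d)) (M'.f (M'.ι d)) = _
    rw [(hz' d).1]
    simp
  -- the new big face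
  set g : {d // d ∈ R} → D' := fun x => j ⟨x.1, x.2⟩ with hg
  have hgi : Function.Injective g := by
    intro x y hxy
    have := j1 hxy
    exact Subtype.ext (congrArg (fun z => z.1) this)
  set R' : List D' := R.attach.map g with hR'
  have hR'm : ∀ d', d' ∈ R' ↔ d' ∈ Set.range j := by
    intro d'
    rw [hR', List.mem_map]
    constructor
    · rintro ⟨x, -, rfl⟩
      exact ⟨⟨x.1, x.2⟩, rfl⟩
    · rintro ⟨x, rfl⟩
      exact ⟨⟨x.1, x.2⟩, List.mem_attach _ _, rfl⟩
  have hlen : R'.length = R.length := by simp [hR']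
  have hget : ∀ (i : ℕ) (hi : i < R.length), R'[i]'(by rw [hlen]; exact hi) =
      j ⟨R[i], List.getElem_mem hi⟩ := by
    intro i hi
    simp [hR', hg]
  refine ⟨D', fD', M'.toP hz', R', ⟨j4, fun d => ?_, ⟨?_, ?_, ?_⟩, ⟨fun d hd => ?_, fun d hd => ?_⟩,
    ?_⟩, j7⟩
  · have := j5 d
    rw [ht' d] at this
    exact this.1
  · intro h
    apply hF.1
    rw [← List.length_eq_zero_iff, ← hlen, h]
    rfl
  · rw [hR']
    exact (List.nodup_attach.2 hF.2.1).map hgi
  · apply List.ext_getElem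
    · simp
    · intro i hi1 hi2
      have hi : i < R.length := by simpa [hlen] using hi1
      have h3 := hF.2.2
      have h4 : (R.map M.φ)[i]'(by simpa using hi) = (R.rotate 1)[i]'(by simpa using hi) := by
        simp only [h3]
      rw [List.getElem_map, List.getElem_rotate] at h4
      rw [List.getElem_map, List.getElem_rotate, hget i hi]
      have hi' : (i + 1) % R.length < R.length := Nat.mod_lt _ (by omega)
      have h5 : R'[(i + 1) % R'.length]'(Nat.mod_lt _ (by omega)) =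
          j ⟨R[(i + 1) % R.length], List.getElem_mem hi'⟩ := by
        rw [← hget _ hi']
        congr 1
        rw [hlen]
      rw [h5]
      exact j2 _ _ h4
  · show M'.φ d ∈ R'
    have hd : d ∈ R' := hd
    rw [hR'm] at hd ⊢
    obtain ⟨x, rfl⟩ := hd
    exact ⟨⟨M.φ x.1, hoff.1 _ x.2⟩, (j2 x ⟨M.φ x.1, hoff.1 _ x.2⟩ rfl).symm⟩
  · exact (j6.2 d fun h => hd ((hR'm d).2 h)).1
  · rw [hwk]
    have h6 : R'.map (M'.toP hz').f = R.map M.f := by
      apply List.ext_getElem
      · simp [hlen]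
      · intro i hi1 hi2
        have hi : i < R.length := by simpa [hlen] using hi1
        have h7 : (R'.map (M'.toP hz').f)[i]'hi1 =
            (M'.toP hz').f (R'[i]'(by rw [hlen]; exact hi)) := List.getElem_map _
        rw [h7, hget i hi, List.getElem_map]
        show (M'.f (j _)).1 = _
        rw [(j3 _).1]
        rfl
    show R.map M.f ++ _ = R'.map _ ++ _
    rw [h6]

end MSG.F55
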